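import Mathlib
import Pool.Agent.H254R2.SP.R

set_option autoImplicit false

namespace Pool.Agent.Results.MP_120218_co.FullRange

/-- The `k`-fold Erdős–Szemerédi inequality with full exponent for sets of integers with
`o(log |A|)` prime factors per element (relative to a fixed dilate `D`), with an explicit error
term that is uniform in `k`. -/
theorem result :
    ∀ k : ℕ, 1 ≤ k → ∀ A B : Finset ℤ, B ⊆ A → 2 ≤ B.card → ∀ D : ℕ, D ≠ 0 → ∀ m : ℕ, 1 ≤ m →
      (∀ b ∈ B, b ≠ 0 → ((b.natAbs.primeFactors ∪ D.primeFactors).filter fun p =>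
        b.natAbs.factorization p ≠ D.factorization p).card ≤ m) →
      (B.card : ℝ) ^ k * Real.exp (-(110 * Real.sqrt ((k : ℝ) ^ 3 * m * Real.log B.card))) ≤
        max
          (((Fintype.piFinset (fun _ : Fin k => A)).image
              (fun f : Fin k → ℤ => ∑ i, f i)).card : ℝ)
          (((Fintype.piFinset (fun _ : Fin k => A)).image
              (fun f : Fin k → ℤ => ∏ i, f i)).card : ℝ) := by
  intro k hk A B hBA hB D hD m hm hω
  exact H254R2.SP.final k hk A B hBA hB D hD m hm hω

end Pool.Agent.Results.MP_120218_co.FullRange
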