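import Pool.Agent.H633R5.FS.Cor

/-!
Either the `k`-fold product set has almost maximal size, or the iterated sumsets grow:
`|mA| ≥ |A|^(1 + c log m)`.
-/

set_option autoImplicit false

namespace Pool.Agent.Results.MP_120218_co.GrowthOrProducts

open Finset

theorem result (k : ℕ) (hk : 1 ≤ k) (ε : ℝ) (hε : 0 < ε) :
    ∃ c : ℝ, 0 < c ∧ ∀ A : Finset ℤ, A.Nonempty → ∀ m : ℕ, 2 ≤ m → (m : ℝ) ≤ Real.log A.card →
      c * (A.card : ℝ) ^ ((k : ℝ) - ε) ≤
          ((Fintype.piFinset fun _ : Fin k => A).image fun f => ∏ i, f i).card ∨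
        (A.card : ℝ) ^ (1 + c * Real.log m) ≤
          ((Fintype.piFinset fun _ : Fin m => A).image fun f => ∑ i, f i).card :=
  H633R5.FS.growth k hk ε hε

end Pool.Agent.Results.MP_120218_co.GrowthOrProducts
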