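import Pool.Agent.H633R5.FS.LogExp

/-!
Absolute constants: `|A^k| ≥ |A|^(c log k)` or `|mA| ≥ |A|^(1 + c log m)`.
-/

set_option autoImplicit false

namespace Pool.Agent.Results.MP_120218_co.LogExponent

open Finset

theorem result :
    ∃ c : ℝ, 0 < c ∧ ∀ A : Finset ℤ, A.Nonempty → ∀ m : ℕ, 2 ≤ m →
      (m : ℝ) ≤ Real.log A.card → ∀ k : ℕ, 2 ≤ k →
        (A.card : ℝ) ^ (c * Real.log k) ≤
            ((Fintype.piFinset fun _ : Fin k => A).image fun f => ∏ i, f i).card ∨
          (A.card : ℝ) ^ (1 + c * Real.log m) ≤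
            ((Fintype.piFinset fun _ : Fin m => A).image fun f => ∑ i, f i).card :=
  H633R5.FS.log_exponent

end Pool.Agent.Results.MP_120218_co.LogExponent
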