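import Pool.Agent.H633R5.FS.Fin

/-!
Few sums, many products, with polynomial losses: an inequality for the product set of `k` finite
sets of integers.
-/

set_option autoImplicit false

namespace Pool.Agent.Results.MP_120218_co.ProductInequality

open Finset
open scoped Pointwise

theorem result (k : ℕ) (hk : 1 ≤ k) (ε : ℝ) (hε : 0 < ε) :
    ∃ C : ℝ, 0 < C ∧ ∀ e : ℝ, 0 < e → e ≤ 1 → ∀ A P : Fin k → Finset ℤ,
      (∀ i, ∃ a ∈ A i, a ≠ 0) → (∀ i, (P i).Nonempty) →
      ∏ i, ((A i).card : ℝ) ^ (1 - ε) ≤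
        ((Fintype.piFinset A).image fun f => ∏ i, f i).card *
          ∏ i, (((P i).card : ℝ) ^ e * ((3 + Real.log (P i).card) *
            (((A i + P i).card : ℝ) / (P i).card)) ^ Real.exp (C / e)) :=
  H633R5.FS.tuple k hk ε hε

end Pool.Agent.Results.MP_120218_co.ProductInequality
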